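import Pool.Agent.H742.AC6.Stm2

set_option autoImplicit false

namespace Pool.Agent.H742.AC6

open Set Topology TopologicalSpace

noncomputable section

namespace CLOSEGLUE

lemma P_self (i : Fin 3) (r : ℝ) : P i r 0 i = r := by
  unfold P
  rw [if_pos rfl]
  ring

lemma P_ne {i k : Fin 3} (h : k ≠ i) (r : ℝ) : P i r 0 k = 0 := by
  unfold P
  rw [if_neg h]
  split_ifs
  · ring
  · rfl

lemma size_P (i : Fin 3) (r : ℝ) : size (P i r 0) = r := by
  unfold size
  fin_cases i
  · show P 0 r 0 0 + P 0 r 0 1 + P 0 r 0 2 = r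
    rw [P_self, P_ne (by decide), P_ne (by decide)]
    ring
  · show P 1 r 0 0 + P 1 r 0 1 + P 1 r 0 2 = r
    rw [P_self, P_ne (by decide), P_ne (by decide)]
    ring
  · show P 2 r 0 0 + P 2 r 0 1 + P 2 r 0 2 = r
    rw [P_self, P_ne (by decide), P_ne (by decide)]
    ring

lemma P_inj {i j : Fin 3} {r : ℝ} (hr : r ≠ 0) (h : P i r 0 = P j r 0) : i = j := by
  by_contra hij
  have h1 := congrFun h i
  rw [P_self, P_ne hij] at h1
  exact hr h1

lemma size_W (u v : ℝ) : size (W u v) = 1 + u + v := by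
  unfold size W
  simp
  ring

lemma W00 : W 0 0 = P 1 1 0 := by
  funext k
  unfold W P
  fin_cases k <;> simp

lemma pw (M : ℕ) : 0 < ((1 : ℝ) / 2) ^ M ∧ ((1 : ℝ) / 2) ^ M ≤ 1 :=
  ⟨by positivity, pow_le_one₀ (by norm_num) (by norm_num)⟩

lemma size_C0 {y : Fin 3 → ℝ} (h : y ∈ C0) : size y ≤ 3 := by
  obtain ⟨u, hu, rfl⟩ := h
  unfold size
  simp
  linarith [hu.1, hu.2]

lemma size_C2 {y : Fin 3 → ℝ} (h : y ∈ C2) : size y ≤ 3 := by
  obtain ⟨u, hu, rfl⟩ := h
  unfold size
  simp
  linarith [hu.1, hu.2]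

lemma size_GG {b : ℕ → ℕ → Bool} {y : Fin 3 → ℝ} (h : y ∈ GG b) : size y ≤ 3 := by
  unfold GG at h
  rcases h with h | h
  · rw [mem_singleton_iff] at h
    rw [h, size_W]
    norm_num
  · rw [mem_iUnion] at h
    obtain ⟨M, h⟩ := h
    obtain ⟨hp0, hp1⟩ := pw M
    unfold Block at h
    rcases h with (h | h) | h
    · obtain ⟨t, ht, rfl⟩ := h
      rw [size_W]
      unfold uu
      have h1 : t * (1 / 2) ^ M ≤ 1 := mul_le_one₀ ht.2 hp0.le hp1
      linarith
    · obtain ⟨t, ht, rfl⟩ := h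
      rw [size_W]
      unfold cc uu
      have h1 : t * (1 / 2) ^ M ≤ 1 := mul_le_one₀ ht.2 hp0.le hp1
      linarith
    · rw [mem_iUnion] at h
      obtain ⟨n, t, ht, rfl⟩ := h
      show size (W _ _) ≤ 3
      rw [size_W]
      unfold xx cc uu
      obtain ⟨hn0, hn1⟩ := pw n
      obtain ⟨hm0, hm1⟩ := pw (n + 1)
      have h2 : (1 / 2 : ℝ) ^ (n + 1) = (1 / 2) ^ n / 2 := by
        rw [pow_succ]
        ring
      have hq : ((1 : ℝ) / 2) ^ M * (1 / 2) ^ n ≤ 1 := mul_le_one₀ hp1 hn0.le hn1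
      have hq0 : 0 < ((1 : ℝ) / 2) ^ M * (1 / 2) ^ n := by positivity
      have h3 : t * (((1 : ℝ) / 2) ^ M * (1 / 2) ^ n) ≤ 1 := mul_le_one₀ ht.2 hq0.le hq
      have h4 : bv (b M n) * ((1 / 2) ^ M / 8) * (1 - |2 * t - 1|) ≤ 1 / 8 := by
        have h5 : 0 ≤ bv (b M n) ∧ bv (b M n) ≤ 1 := by
          unfold bv
          split_ifs <;> norm_num
        have h6 : 0 ≤ 1 - |2 * t - 1| := by
          have : |2 * t - 1| ≤ 1 := abs_le.2 ⟨by linarith [ht.1], by linarith [ht.2]⟩
          linarith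
        have h7 : 1 - |2 * t - 1| ≤ 1 := by
          have := abs_nonneg (2 * t - 1)
          linarith
        have h8 : bv (b M n) * ((1 / 2) ^ M / 8) ≤ 1 / 8 := by
          have : bv (b M n) * (1 / 2) ^ M ≤ 1 := mul_le_one₀ h5.2 hp0.le hp1
          linarith
        calc bv (b M n) * ((1 / 2) ^ M / 8) * (1 - |2 * t - 1|) ≤ 1 / 8 * 1 :=
              mul_le_mul h8 h7 h6 (by norm_num)
          _ = 1 / 8 := by ring
      rw [h2]
      nlinarith

lemma size_TT (hS : S_SIZE) {g : ℕ → ℝ} (hg : ∀ m, g m ∈ Icc (0 : ℝ) 1) {y : Fin 3 → ℝ}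
    (h : y ∈ TT g 0) : size y ≤ 1 ∧ (size y = 1 → ∃ i, y = P i 1 0) := by
  unfold TT at h
  rcases h with h | h
  · rw [mem_singleton_iff] at h
    have h0 : size y = 0 := by
      rw [h]
      unfold size
      simp
    rw [h0]
    exact ⟨by norm_num, fun h1 => by norm_num at h1⟩
  · rw [mem_iUnion] at h
    obtain ⟨i, h⟩ := h
    rw [mem_iUnion] at h
    obtain ⟨⟨m, hm⟩, h⟩ := h
    obtain ⟨-, h1, -, h2⟩ := hS i m (g m) (hg m).1 (hg m).2 y h
    obtain ⟨hp0, hp1⟩ := pw m
    refine ⟨h1.trans hp1, fun h3 => ?_⟩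
    rcases Nat.eq_zero_or_pos m with h0 | h0
    · subst h0
      refine ⟨i, ?_⟩
      have h4 : sg 0 = 1 := by
        unfold sg
        simp
      rw [h4] at h2
      exact h2 h3
    · exfalso
      have h4 : ((1 : ℝ) / 2) ^ m < 1 := pow_lt_one₀ (by norm_num) (by norm_num) (by omega)
      unfold sg at h1
      linarith

/-- the index of a terminal -/
def e (v : ℕ) : Fin 3 := if v = 0 then 0 else if v = 1 then 1 else 2

/-- the vertices -/
def ps (v : ℕ) : Fin 3 → ℝ :=
  if v < 3 then P (e v) 1 0 else if v = 3 then W 1 0 else P (e (v - 4)) 5 0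

lemma e_inj {v w : ℕ} (hv : v < 3) (hw : w < 3) (h : e v = e w) : v = w := by
  interval_cases v <;> interval_cases w <;> simp_all [e]

lemma ps_lt {v : ℕ} (hv : v < 3) : ps v = P (e v) 1 0 := by
  unfold ps
  rw [if_pos hv]

lemma ps_3 : ps 3 = W 1 0 := by
  unfold ps
  rw [if_neg (by omega), if_pos rfl]

lemma ps_gt {v : ℕ} (hv : 4 ≤ v) : ps v = P (e (v - 4)) 5 0 := by
  unfold ps
  rw [if_neg (by omega), if_neg (by omega)]

lemma size_lt {v : ℕ} (hv : v < 3) : size (ps v) = 1 := by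
  rw [ps_lt hv, size_P]

lemma size_3 : size (ps 3) = 2 := by
  rw [ps_3, size_W]
  norm_num

lemma size_gt {v : ℕ} (hv : 4 ≤ v) : size (ps v) = 5 := by
  rw [ps_gt hv, size_P]

end CLOSEGLUE

open CLOSEGLUE in
theorem t_CLOSEGLUE (hGARC : S_GARC) (hGPOS : S_GPOS) (hSIZE : S_SIZE) : S_CLOSEGLUE := by
  intro g b hg hb
  obtain ⟨hG1, hG2, hG3, hG4, hG5, hG6, hA0, hA2⟩ := hGPOS b
  have hA1 := hGARC b hb
  rw [W00] at hA1
  obtain ⟨f0, hf0c, hf0i, hf00, hf01, hf0r⟩ := hA0
  obtain ⟨f1, hf1c, hf1i, hf10, hf11, hf1r⟩ := hA1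
  obtain ⟨f2, hf2c, hf2i, hf20, hf21, hf2r⟩ := hA2
  -- the arcs and the edges
  set F : ℕ → unitInterval → (Fin 3 → ℝ) := fun k => if k = 0 then f0 else if k = 1 then f1 else f2
    with hF
  set D : ℕ → Set (Fin 3 → ℝ) := fun k => if k = 0 then C0 else if k = 1 then GG b else C2 with hD
  have hF0 : F 0 = f0 := rfl
  have hF1 : F 1 = f1 := rfl
  have hF2 : F 2 = f2 := rfl
  have hFc : ∀ k < 3, Continuous (F k) := by
    intro k hk
    interval_cases k
    · exact hf0c
    · exact hf1c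
    · exact hf2c
  have hFi : ∀ k < 3, Function.Injective (F k) := by
    intro k hk
    interval_cases k
    · exact hf0i
    · exact hf1i
    · exact hf2i
  have hFs : ∀ k < 3, F k 0 = ps k := by
    intro k hk
    rw [ps_lt hk]
    interval_cases k
    · exact hf00
    · exact hf10
    · exact hf20
  have hFt : ∀ k < 3, F k 1 = ps 3 := by
    intro k hk
    rw [ps_3]
    interval_cases k
    · exact hf01
    · exact hf11
    · exact hf21
  have hFr : ∀ k < 3, range (F k) = D k := by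
    intro k hk
    interval_cases k
    · exact hf0r
    · exact hf1r
    · exact hf2r
  have hFD : ∀ k < 3, ∀ s, F k s ∈ D k := by
    intro k hk s
    rw [← hFr k hk]
    exact mem_range_self s
  have hDs : ∀ k < 3, ∀ y ∈ D k, 1 ≤ size y ∧ (size y = 1 → y = ps k) := by
    intro k hk
    rw [ps_lt hk]
    interval_cases k
    · exact hG2
    · intro y hy
      obtain ⟨h1, h2⟩ := hG1 y hy
      rw [W00] at h2
      exact ⟨h1, h2⟩
    · exact hG3
  have hD3 : ∀ k < 3, ∀ y ∈ D k, size y ≤ 3 := by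
    intro k hk
    interval_cases k
    · exact fun y hy => size_C0 hy
    · exact fun y hy => size_GG hy
    · exact fun y hy => size_C2 hy
  have hDD : ∀ k < 3, ∀ l < 3, k ≠ l → ∀ y, y ∈ D k → y ∈ D l → y = ps 3 := by
    intro k hk l hl hkl y h1 h2
    rw [ps_3]
    interval_cases k <;> interval_cases l
    · exact absurd rfl hkl
    · exact hG4 ⟨h2, h1⟩
    · exact hG6 ⟨h1, h2⟩
    · exact hG4 ⟨h1, h2⟩
    · exact absurd rfl hkl
    · exact hG5 ⟨h1, h2⟩
    · exact hG6 ⟨h2, h1⟩
    · exact hG5 ⟨h2, h1⟩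
    · exact absurd rfl hkl
  have hinn : ∀ i : Fin 3, e (i : ℕ) = i := by
    intro i
    fin_cases i <;> rfl
  have hedges : edges CLOSE F = C0 ∪ GG b ∪ C2 := by
    unfold edges
    ext y
    simp only [mem_ofPred_eq]
    constructor
    · rintro ⟨k, hk, hy⟩
      have hk3 : k < 3 := hk
      rw [hFr k hk3] at hy
      interval_cases k
      · exact Or.inl (Or.inl hy)
      · exact Or.inl (Or.inr hy)
      · exact Or.inr hy
    · rintro ((hy | hy) | hy)
      · exact ⟨0, by decide, by rw [hFr 0 (by omega)]; exact hy⟩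
      · exact ⟨1, by decide, by rw [hFr 1 (by omega)]; exact hy⟩
      · exact ⟨2, by decide, by rw [hFr 2 (by omega)]; exact hy⟩
  refine ⟨ps, F, ?_, ?_, ?_, ?_⟩
  · refine ⟨?_, hFc, hFi, hFs, hFt, ?_, ?_, ?_, ?_⟩
    · -- injectivity
      intro v hv w hw h
      have hs := congrArg size h
      have hv7 : v < 7 := hv
      have hw7 : w < 7 := hw
      rcases lt_trichotomy v 3 with h1 | h1 | h1 <;> rcases lt_trichotomy w 3 with h2 | h2 | h2
      · rw [ps_lt h1, ps_lt h2] at h
        exact e_inj h1 h2 (P_inj one_ne_zero h)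
      · subst h2
        rw [size_lt h1, size_3] at hs
        norm_num at hs
      · rw [size_lt h1, size_gt h2] at hs
        norm_num at hs
      · subst h1
        rw [size_lt h2, size_3] at hs
        norm_num at hs
      · omega
      · subst h1
        rw [size_3, size_gt h2] at hs
        norm_num at hs
      · rw [size_lt h2, size_gt h1] at hs
        norm_num at hs
      · subst h2
        rw [size_3, size_gt h1] at hs
        norm_num at hs
      · rw [ps_gt h1, ps_gt h2] at h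
        have := e_inj (by omega) (by omega) (P_inj (by norm_num) h)
        omega
    · -- edges meet
      intro k hk l hl hkl s t h
      refine ⟨3, hDD k hk l hl hkl _ (hFD k hk s) (by rw [h]; exact hFD l hl t), Or.inr rfl, Or.inr rfl⟩
    · -- edges and the inner part
      intro k hk s h
      have hk3 : k < 3 := hk
      obtain ⟨h1, -⟩ := size_TT hSIZE hg h
      obtain ⟨h2, h3⟩ := hDs k hk3 _ (hFD k hk3 s)
      exact ⟨⟨k, hk3⟩, h3 (le_antisymm h1 h2), Or.inl rfl⟩
    · -- vertices on edges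
      intro v hv k hk s h
      have hk3 : k < 3 := hk
      rcases lt_trichotomy v 3 with h1 | h1 | h1
      · left
        have h2 : size (F k s) = 1 := by rw [h, size_lt h1]
        have h3 := (hDs k hk3 _ (hFD k hk3 s)).2 h2
        rw [h, ps_lt h1, ps_lt hk3] at h3
        exact e_inj h1 hk3 (P_inj one_ne_zero h3)
      · exact Or.inr h1
      · exfalso
        have h2 := hD3 k hk3 _ (hFD k hk3 s)
        rw [h, size_gt h1] at h2
        norm_num at h2
    · -- vertices in the inner part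
      intro v hv h
      obtain ⟨h1, -⟩ := size_TT hSIZE hg h
      rcases lt_trichotomy v 3 with h2 | h2 | h2
      · exact ⟨⟨v, h2⟩, rfl⟩
      · exfalso
        subst h2
        rw [size_3] at h1
        norm_num at h1
      · exfalso
        rw [size_gt h2] at h1
        norm_num at h1
  · intro i
    show ps (i : ℕ) = P i 1 0
    rw [ps_lt i.2, hinn]
  · intro i h
    have h5 : size (ps (4 + (i : ℕ))) = 5 := size_gt (by omega)
    have h6 : ps (CLOSE.out i) = ps (4 + (i : ℕ)) := rfl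
    rw [h6] at h
    have h7 : size (ps (4 + (i : ℕ))) ≤ 3 := by
      rcases h with ((h | h) | h) | h
      · have := (size_TT hSIZE hg h).1
        linarith
      · exact size_C0 h
      · exact size_C2 h
      · exact size_GG h
    rw [h5] at h7
    norm_num at h7
  · rw [hedges]
    unfold KK
    ext y
    simp only [mem_union]
    tauto

end

end Pool.Agent.H742.AC6
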